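import Pool.Agent.H37.CNW.Stmts
import Pool.Agent.H36.CND.CMB

/-!
# Board cnw, row XDI: the sum of `b` over `I ∖ B`
-/

set_option autoImplicit false

namespace Pool.CND

open Finset

/-- additivity along `V ≤ N ≤ I` -/
theorem xdi_add {G : Type} [Group G] [Fintype G] (b : G → ℤ) (V N I : Subgroup G) (hVN : V ≤ N)
    (hNI : N ≤ I) : sm b {g | g ∈ I ∧ g ∉ V} = sm b {g | g ∈ N ∧ g ∉ V} + sm b {g | g ∈ I ∧ g ∉ N} := by
  classical
  unfold sm
  rw [← Finset.sum_union]
  · refine Finset.sum_congr ?_ fun _ _ => rfl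
    ext x
    simp only [Finset.mem_union, Finset.mem_filter, Finset.mem_univ, true_and, Set.mem_ofPred_eq]
    constructor
    · rintro ⟨h1, h2⟩
      by_cases hx : x ∈ N
      · exact Or.inl ⟨hx, h2⟩
      · exact Or.inr ⟨h1, hx⟩
    · rintro (⟨h1, h2⟩ | ⟨h1, h2⟩)
      · exact ⟨hNI h1, h2⟩
      · exact ⟨h1, fun h => h2 (hVN h)⟩
  · rw [Finset.disjoint_left]
    intro x hx hx'
    simp only [Finset.mem_filter, Finset.mem_univ, true_and, Set.mem_ofPred_eq] at hx hx'
    exact hx'.2 hx.1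

/-- the chain from `V` to `W` -/
theorem xdi_chain (hMAX : S_MAX) (p : ℕ) (hp : p.Prime) (G : Type) [Group G] [Fintype G]
    (b : G → ℤ) (W V : Subgroup G) (hHB : HB p b W) (hW : ∃ n : ℕ, Nat.card W = p ^ n) :
    ∀ n : ℕ, ∀ I : Subgroup G, V ≤ I → I ≤ W → Nat.card I = n →
      ∃ s : ℤ, sm b {g | g ∈ I ∧ g ∉ V} = Nat.card V * s ∧ (p = 2 → V ≠ I → ¬ (2 : ℤ) ∣ s) := by
  classical
  intro n
  induction n using Nat.strong_induction_on with
  | _ n ih =>
    intro I hVI hIW hn
    by_cases hVe : V = I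
    · refine ⟨0, ?_, fun _ h => absurd hVe h⟩
      subst hVe
      unfold sm
      rw [mul_zero]
      refine Finset.sum_eq_zero fun x hx => ?_
      simp only [Finset.mem_filter, Finset.mem_univ, true_and, Set.mem_ofPred_eq] at hx
      exact absurd hx.1 hx.2
    · obtain ⟨e, he⟩ := hW
      have hdI : Nat.card I ∣ p ^ e := he ▸ Subgroup.card_dvd_of_le hIW
      obtain ⟨i, -, hi⟩ := (Nat.dvd_prime_pow hp).1 hdI
      obtain ⟨N, hVN, hNI, hcard, hnorm⟩ := hMAX p G I V hp ⟨i, hi⟩ hVI hVe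
      obtain ⟨B, hpB, hB⟩ := hHB N I hNI hIW hcard hnorm
      have hNpos : 0 < Nat.card N := Nat.card_pos
      have hlt : Nat.card N < n := by
        have := hp.two_le
        rw [← hn, hcard]
        nlinarith
      obtain ⟨s, hs, hs2⟩ := ih (Nat.card N) hlt N hVN (hNI.trans hIW) rfl
      obtain ⟨q, hq⟩ := Subgroup.card_dvd_of_le hVN
      have hT : sm b {g | g ∈ I ∧ g ∉ N} = (((p : ℤ) - 1) * Nat.card N) * B := by
        have h1 := cmb_sumT b N I B hNI hB
        have h2 := cmb_cardT N I hNI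
        have h3 : ((univ.filter (fun g => g ∈ I ∧ g ∉ N)).card : ℤ) =
            ((p : ℤ) - 1) * Nat.card N := by
          have h4 : (((univ.filter (fun g => g ∈ I ∧ g ∉ N)).card : ℕ) : ℤ) + Nat.card N =
              p * Nat.card N := by
            rw [hcard] at h2
            exact_mod_cast h2
          linarith
        rw [← h3, ← h1]
        unfold sm
        refine Finset.sum_congr ?_ fun _ _ => rfl
        ext x
        simp only [Finset.mem_filter, Finset.mem_univ, true_and, Set.mem_ofPred_eq]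
      refine ⟨s + ((p : ℤ) - 1) * q * B, ?_, ?_⟩
      · rw [xdi_add b V N I hVN hNI, hs, hT, hq]
        push_cast
        ring
      · intro h2 _
        subst h2
        by_cases hVN' : V = N
        · have hq1 : q = 1 := by
            subst hVN'
            have h5 : Nat.card V * 1 = Nat.card V * q := by rw [mul_one]; exact hq
            exact (Nat.eq_of_mul_eq_mul_left hNpos h5).symm
          have hs0 : s = 0 := by
            subst hVN'
            have h6 : sm b {g | g ∈ V ∧ g ∉ V} = 0 := by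
              unfold sm
              refine Finset.sum_eq_zero fun x hx => ?_
              simp only [Finset.mem_filter, Finset.mem_univ, true_and, Set.mem_ofPred_eq] at hx
              exact absurd hx.1 hx.2
            rw [h6] at hs
            have h7 : (Nat.card V : ℤ) ≠ 0 := by exact_mod_cast hNpos.ne'
            rcases mul_eq_zero.1 hs.symm with h | h
            · exact absurd h h7
            · exact h
          rw [hq1, hs0]
          intro h
          apply hpB
          have h8 : (2 : ℤ) ∣ B := by simpa using h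
          exact_mod_cast h8
        · have hq2 : (2 : ℤ) ∣ (q : ℤ) := by
            have hdN : Nat.card N ∣ 2 ^ e := he ▸ Subgroup.card_dvd_of_le (hNI.trans hIW)
            have hqd : q ∣ 2 ^ e := (Dvd.intro_left _ hq.symm).trans hdN
            obtain ⟨j, -, hj⟩ := (Nat.dvd_prime_pow Nat.prime_two).1 hqd
            rcases Nat.eq_zero_or_pos j with h | h
            · exfalso
              apply hVN'
              rw [h, pow_zero] at hj
              rw [hj, mul_one] at hq
              exact Subgroup.eq_of_le_of_card_ge hVN hq.le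
            · have : 2 ∣ q := hj ▸ dvd_pow_self 2 h.ne'
              exact_mod_cast this
          intro h
          apply hs2 rfl hVN'
          have h9 : (2 : ℤ) ∣ (((2 : ℕ) : ℤ) - 1) * q * B :=
            Dvd.dvd.mul_right (Dvd.dvd.mul_left hq2 _) _
          exact (dvd_add_left h9).1 h

/-- the sum over a subgroup, seen in the group or in the subgroup -/
theorem xdi_sub {G : Type} [Group G] [Fintype G] (b : G → ℤ) (B V : Subgroup G) (hVB : V ≤ B)
    [Fintype B] : sm (fun g : B => b g) {g | g ∈ V.subgroupOf B ∧ g ≠ 1} = sm b {g | g ∈ V ∧ g ≠ 1} := by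
  classical
  unfold sm
  refine Finset.sum_bij (fun (g : B) _ => (g : G)) ?_ ?_ ?_ ?_
  · intro g hg
    simp only [Finset.mem_filter, Finset.mem_univ, true_and, Set.mem_ofPred_eq] at hg ⊢
    exact ⟨Subgroup.mem_subgroupOf.1 hg.1, fun h => hg.2 (Subtype.ext h)⟩
  · intro g _ g' _ h
    exact Subtype.ext h
  · intro x hx
    simp only [Finset.mem_filter, Finset.mem_univ, true_and, Set.mem_ofPred_eq] at hx
    refine ⟨⟨x, hVB hx.1⟩, ?_, rfl⟩
    simp only [Finset.mem_filter, Finset.mem_univ, true_and, Set.mem_ofPred_eq]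
    exact ⟨Subgroup.mem_subgroupOf.2 hx.1, fun h => hx.2 (congrArg Subtype.val h)⟩
  · intro g _
    rfl

theorem xdi_thm (hMAX : S_MAX) (hHBP : S_HBP) (hYDV : S_YDV) (hYTH : S_YTH) (hYCY : S_YCY)
    (hWLD : S_WLD) : S_XDI := by
  intro p k L G _ _ _ _ _ P ρ I W B hp hchar hinj hI hW hBI
  classical
  obtain ⟨W', I', hW', hI', hWI, ⟨e, he⟩, m, hpm, hm⟩ := hWLD p k L G P ρ hp hchar hinj
  obtain rfl : W' = W := SetLike.coe_injective (hW'.trans hW.symm)
  obtain rfl : I' = I := SetLike.coe_injective (hI'.trans hI.symm)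
  obtain ⟨ζ, hZ, hζ⟩ := hYTH k L G P ρ W' I' hW hI
  have hm1 : 1 ≤ m := by
    rcases Nat.eq_zero_or_pos m with h | h
    · exact absurd (h ▸ dvd_zero p) hpm
    · exact h
  obtain ⟨g0, hg0, hgj, hgr⟩ := hYCY k G W' I' ζ m hWI hZ hm
  have hdW := hYDV k L G P ρ W' I' ζ m g0 hinj hW hI hZ hζ hm1 hg0 hgr
  -- `b = 0` on `I ∖ W`
  have hb0 : ∀ g ∈ I', g ∉ W' → P.b (ρ g) = 0 := by
    intro g hg hgW
    have h1 : ζ g - 1 ≠ 0 := fun h => hgW ((hZ.ker g hg).1 (sub_eq_zero.1 h))
    have h2 : algebraMap k L (ζ g - 1) * P.pi ≠ 0 :=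
      mul_ne_zero (by rwa [Ne, map_eq_zero_iff _ (algebraMap k L).injective]) P.pi_ne
    have h3 : P.ord (algebraMap k L (ζ g - 1) * P.pi) = 1 := by
      rw [P.ord_mul _ _ (by rwa [Ne, map_eq_zero_iff _ (algebraMap k L).injective]) P.pi_ne,
        P.ord_const _ h1, P.ord_pi, zero_add]
    have h4 := P.ord_add_of_lt (y := ρ g P.pi - algebraMap k L (ζ g) * P.pi) h2
      (by rw [h3]; exact hζ g hg)
    have h5 : algebraMap k L (ζ g - 1) * P.pi + (ρ g P.pi - algebraMap k L (ζ g) * P.pi) =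
        ρ g P.pi - P.pi := by
      rw [map_sub, map_one]
      ring
    rw [h5, h3] at h4
    unfold Place.b
    rw [h4.2]
    norm_num
  -- the intersection
  obtain ⟨V, hV⟩ : ∃ V : Subgroup G, V = W' ⊓ B := ⟨_, rfl⟩
  have hVW : V ≤ W' := hV ▸ inf_le_left
  have hVB : V ≤ B := hV ▸ inf_le_right
  have hVpos : 0 < Nat.card V := Nat.card_pos
  have hsum : sm (fun x => P.b (ρ x)) {g | g ∈ I' ∧ g ∉ B} =
      sm (fun x => P.b (ρ x)) {g | g ∈ W' ∧ g ∉ V} := by
    unfold sm
    symm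
    refine Finset.sum_subset ?_ ?_
    · intro x hx
      simp only [Finset.mem_filter, Finset.mem_univ, true_and, Set.mem_ofPred_eq] at hx ⊢
      exact ⟨hWI hx.1, fun h => hx.2 (hV ▸ ⟨hx.1, h⟩)⟩
    · intro x hx hx'
      simp only [Finset.mem_filter, Finset.mem_univ, true_and, Set.mem_ofPred_eq] at hx hx'
      refine hb0 x hx.1 fun h => hx' ⟨h, fun h' => hx.2 (hVB h')⟩
  -- the subgroup `B`
  obtain ⟨nB, hnB'⟩ := Subgroup.card_dvd_of_le hVB
  have hnB : Nat.card B = nB * Nat.card V := by rw [hnB', mul_comm]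
  have hnB1 : 1 ≤ nB := by
    rcases Nat.eq_zero_or_pos nB with h | h
    · rw [h, zero_mul] at hnB
      have : 0 < Nat.card B := Nat.card_pos
      omega
    · exact h
  let _ : Fintype B := Fintype.ofFinite B
  let ρB : B →* (L ≃ₐ[k] L) := ρ.comp B.subtype
  let WB : Subgroup B := V.subgroupOf B
  let ζB : B → k := fun x => ζ x
  have hWBm : ∀ x : B, x ∈ WB ↔ (x : G) ∈ W' := by
    intro x
    constructor
    · intro h
      exact hVW (Subgroup.mem_subgroupOf.1 h)
    · intro h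
      refine Subgroup.mem_subgroupOf.2 ?_
      rw [hV]
      exact ⟨h, x.2⟩
  have hWB : (WB : Set B) = ram P ρB 1 := by
    ext x
    rw [SetLike.mem_coe, hWBm, ← SetLike.mem_coe, hW]
    rfl
  have hIB : ((⊤ : Subgroup B) : Set B) = ram P ρB 0 := by
    ext x
    refine ⟨fun _ => ?_, fun _ => Subgroup.mem_top x⟩
    have h1 : (x : G) ∈ ram P ρ 0 := by
      rw [← hI]
      exact hBI x.2
    exact h1
  have hZB : YZ WB (⊤ : Subgroup B) ζB :=
    { ne := fun g _ => hZ.ne g (hBI g.2)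
      mul := fun g _ h _ => hZ.mul g (hBI g.2) h (hBI h.2)
      ker := fun g _ => (hZ.ker g (hBI g.2)).trans (hWBm g).symm }
  have hcardB : Nat.card (⊤ : Subgroup B) = nB * Nat.card WB := by
    have h1 : Nat.card WB = Nat.card V := Nat.card_congr (Subgroup.subgroupOfEquivOfLe hVB).toEquiv
    rw [h1, Subgroup.card_top, hnB]
  obtain ⟨gB, hgB, -, hgBr⟩ := hYCY k B WB ⊤ ζB nB le_top hZB hcardB
  have hinjB : Function.Injective ρB := hinj.comp Subtype.coe_injective
  have hdB := hYDV k L B P ρB WB ⊤ ζB nB gB hinjB hWB hIB hZB (fun g _ => hζ g (hBI g.2)) hnB1 hgB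
    hgBr
  have hdV : (nB : ℤ) ∣ sm (fun x => P.b (ρ x)) {g | g ∈ V ∧ g ≠ 1} := by
    have h1 := xdi_sub (fun x => P.b (ρ x)) B V hVB
    rw [← h1]
    exact hdB
  -- `nB ∣ m`
  have hnm : nB ∣ m := by
    obtain ⟨j, hj⟩ := hgj gB (hBI gB.2)
    refine (hgBr m).1 ?_
    change ζ gB ^ m = 1
    rw [hj, ← pow_mul, mul_comm, pow_mul, (hgr m).2 dvd_rfl, one_pow]
  have hpn : ¬ p ∣ nB := fun h => hpm (h.trans hnm)
  obtain ⟨s₁, hs₁, hs₂⟩ := xdi_chain hMAX p hp G (fun x => P.b (ρ x)) W' V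
    (hHBP p k L G P ρ W' hp hchar hinj hW) ⟨e, he⟩ _ W' hVW le_rfl rfl
  have hsplit := cmb_split (fun x => P.b (ρ x)) V W' hVW
  have hdn : (nB : ℤ) ∣ sm (fun x => P.b (ρ x)) {g | g ∈ W' ∧ g ∉ V} := by
    have h1 : sm (fun x => P.b (ρ x)) {g | g ∈ W' ∧ g ≠ 1} =
        sm (fun x => P.b (ρ x)) {g | g ∈ V ∧ g ≠ 1} +
          sm (fun x => P.b (ρ x)) {g | g ∈ W' ∧ g ∉ V} := by
      rw [hsplit]
      congr 1
      unfold sm
      refine Finset.sum_congr ?_ fun _ _ => rfl
      ext x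
      simp only [Finset.mem_filter, Finset.mem_univ, true_and, Set.mem_ofPred_eq]
    have h2 : (nB : ℤ) ∣ sm (fun x => P.b (ρ x)) {g | g ∈ W' ∧ g ≠ 1} :=
      (Int.natCast_dvd_natCast.2 hnm).trans hdW
    rw [h1] at h2
    exact (dvd_add_right hdV).1 h2
  have hcop : IsCoprime (nB : ℤ) (Nat.card V : ℤ) := by
    have hdV' : Nat.card V ∣ p ^ e := he ▸ Subgroup.card_dvd_of_le hVW
    obtain ⟨i, -, hi⟩ := (Nat.dvd_prime_pow hp).1 hdV'
    rw [Nat.isCoprime_iff_coprime, hi]
    exact (((Nat.Prime.coprime_iff_not_dvd hp).2 hpn).symm).pow_right i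
  have hdiv : (Nat.card B : ℤ) ∣ sm (fun x => P.b (ρ x)) {g | g ∈ W' ∧ g ∉ V} := by
    rw [hnB]
    push_cast
    exact hcop.mul_dvd hdn ⟨s₁, hs₁⟩
  obtain ⟨s, hs⟩ := hdiv
  refine ⟨s, by rw [hsum, hs], ?_⟩
  intro h2 hWB' h
  have hne : V ≠ W' := by
    intro h3
    apply hWB'
    rw [← h3]
    exact hVB
  refine hs₂ h2 hne ?_
  have h4 : (Nat.card V : ℤ) * s₁ = Nat.card V * (nB * s) := by
    rw [← hs₁, hs, hnB]
    push_cast
    ring
  have h5 : (Nat.card V : ℤ) ≠ 0 := by exact_mod_cast hVpos.ne'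
  rw [mul_left_cancel₀ h5 h4]
  exact Dvd.dvd.mul_left h _

end Pool.CND
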